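import Pool.Agent.Lib.MP_2eeeac_ag.Hyp.HI

/-!
# `MP_2eeeac_ag`: hypersurfaces in products of `m` elliptic curves on which the `m`-fold symbol
vanishes

Setting (see `Pool/Agent/Lib/MP_2eeeac_ag/Defs.lean` and `Pool/Agent/Lib/MP_2eeeac_ag/Iso/MDefs.lean`):
`E_i : y² = x³ + A_i x + B_i`, `i = 0, …, n + 1`, are `m = n + 2 ≥ 2` elliptic curves over `ℚ̄`;
`MCH0Q A B` is the Chow group of zero-cycles `CH₀(E_0 × ⋯ × E_{n+1}) ⊗ ℚ`, i.e. rational cycles
modulo the differences `V(t₀) - V(t₁)` of fibres of irreducible curves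
`V ⊆ (E_0 × ⋯ × E_{n+1}) × ℙ¹`, `Mcl Q` is the class of the point `Q`, and `Msymb b` is the class of
`(b_0 - O) × ⋯ × (b_{n+1} - O)`.

Theorem: let `e₁_i, e₂_i, e₃_i` be the roots of `x³ + A_i x + B_i` in any order, let
`(r_0, s_0) = (0, 1)`,
`r_{i+1} = r_i + (s_i - r_i) (e₃_i - x_i) / (e₁_i - x_i)`,
`s_{i+1} = r_i + (s_i - r_i) (e₃_i - x_i) / (e₂_i - x_i)` (`chn`) and
`c = (e₃_n - x_n) / (e₁_n - x_n)`. If `a_i = (x_i, y_i) ∈ E_i(ℚ̄)` are points with

(*) `x_{n+1} = (e₁_{n+1} (r_n - c) - e₂_{n+1} (s_n - c)) / (r_n - s_n)` (`lastX`),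

then for all points `b_i` which have a nonzero multiple in `ℤ a_i`
* `(b_0 - O) × ⋯ × (b_{n+1} - O) = 0` in `CH₀(E_0 × ⋯ × E_{n+1}) ⊗ ℚ`;
* the sum of the classes of the `2^{n+1}` points `(± b_0, …, ± b_{n+1})` with an even number of
  minus signs is `2^{n+1}` times the class of `(O, …, O)`.

The points `a_0, …, a_n` are arbitrary. If `y_i = 0` for some `i ≤ n` (this is the only case in
which a denominator can be zero) then `a_i` and `b_i` are torsion points and the first class is
trivially zero. The third part says that (*) involves every coordinate: for `j ≤ n` and given `x_i`,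
`i ≠ j` (outside the roots if `i ≤ n`), at most two values of `x_j` (outside the roots) satisfy (*);
so the hypersurface (*) is not a pull-back from a product of fewer factors.

Idea: with the coordinates normalised by a common coordinate `z`, the product of the cubics is a
square times `(z - p) (z - q)`, and the conic `w² = (z - p) (z - q)` is rational; one place over
`z = ∞` gives the points `(± a_i)`, and a suitable second place gives points whose first coordinate
is `O`. The criterion for general rational functions is `Msymb_of_curve`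
(`Pool/Agent/Lib/MP_2eeeac_ag/Hyp/HC.lean`).

Proof and Lean: helper89; definitions and library of the Chow groups: helper91 and others
(see `SymbolKernel`, `IsotropicSubgroups`); readers: helper26, helper47, helper65.
-/

namespace Pool.Agent.Results.MP_2eeeac_ag.Hypersurfaces

open WeierstrassCurve WeierstrassCurve.Affine AlbCH

open Classical in
theorem result (n : ℕ) (A B e₁ e₂ e₃ : ℕ → AlgebraicClosure ℚ)
    [∀ i : Fin (n + 2), (Crv (A i) (B i)).IsElliptic]
    (hR : ∀ i < n + 2, Roots (A i) (B i) (e₁ i) (e₂ i) (e₃ i)) :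
    (∀ (x y : ℕ → AlgebraicClosure ℚ)
      (hP : ∀ i : Fin (n + 2), (Crv (A i) (B i)).Nonsingular (x i) (y i)),
      x (n + 1) = lastX n x e₁ e₂ e₃ →
      ∀ b : MPt (fun i : Fin (n + 2) => A i) (fun i : Fin (n + 2) => B i),
        (∀ i, ∃ l m : ℤ, l ≠ 0 ∧ l • b i = m • (.some (x i) (y i) (hP i) :
          (Crv (A i) (B i)).Point)) →
        Msymb b = 0 ∧
        ∑ S : Finset (Fin (n + 2)) with Even S.card, Mcl (S.piecewise (-b) b)
          = 2 ^ (n + 1) •
            Mcl (0 : MPt (fun i : Fin (n + 2) => A i) (fun i : Fin (n + 2) => B i))) ∧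
    ∀ j ≤ n, ∀ x : ℕ → AlgebraicClosure ℚ,
      (∀ i ≤ n, i ≠ j → x i ≠ e₁ i ∧ x i ≠ e₂ i ∧ x i ≠ e₃ i) →
      ∀ v : AlgebraicClosure ℚ, {t : AlgebraicClosure ℚ | t ≠ e₁ j ∧ t ≠ e₂ j ∧ t ≠ e₃ j ∧
        lastX n (Function.update x j t) e₁ e₂ e₃ = v}.encard ≤ 2 :=
  ⟨fun _ _ hP hx b hb => hyp_result' hR hP hx b hb,
    fun _ hj _ hx v => lastX_card hj hx (fun i hi => by
      have : (Crv (A i) (B i)).IsElliptic := inferInstanceAs
        (Crv (A ((⟨i, by omega⟩ : Fin (n + 2)) : ℕ))
          (B ((⟨i, by omega⟩ : Fin (n + 2)) : ℕ))).IsElliptic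
      exact (hR i (by omega)).ne) v⟩

end Pool.Agent.Results.MP_2eeeac_ag.Hypersurfaces
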