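import Pool.Agent.Lib.MP_2eeeac_ag.Iso.Final

/-!
# `MP_2eeeac_ag`: subgroups of infinite rank on which the Albanese map of zero-cycles is injective

Setting (see `Pool/Agent/Lib/MP_2eeeac_ag/Defs.lean` and `Pool/Agent/Lib/MP_2eeeac_ag/Iso/MDefs.lean`):
`E_i : y² = x³ + A_i x + B_i`, `i = 1, …, m`, are elliptic curves over `ℚ̄`; `MCH0Q A B` is the Chow
group of zero-cycles `CH₀(E_1 × ⋯ × E_m) ⊗ ℚ`, i.e. rational cycles modulo the differences
`V(t₀) - V(t₁)` of fibres of irreducible curves `V ⊆ (E_1 × ⋯ × E_m) × ℙ¹`, and `Mcl Q` is the class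
of the point `Q`.

Theorem: for every elliptic curve `E₀` over `ℚ̄` and every `a ∈ E₀(ℚ̄)` there is a rule `Γ` which
assigns to every elliptic curve `E` over `ℚ̄` a subgroup `Γ(E) ⊆ E(ℚ̄)` of infinite rank which is
closed under division, such that `a ∈ Γ(E₀)` and such that for all `m ≥ 2` and all elliptic curves
`E_1, …, E_m` every zero-cycle on `X = E_1 × ⋯ × E_m` of degree zero which is supported on
`Γ(E_1) × ⋯ × Γ(E_m)` and has trivial image in the Albanese variety `X` vanishes in `CH₀(X) ⊗ ℚ`.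

Proof and assembly: helper89 (found independently by helper16); library and definitions of the
case of two factors: helper91 and others (see `SymbolKernel`); modules: helper2, helper8, helper19,
helper21, helper77.
-/

namespace Pool.Agent.Results.MP_2eeeac_ag.IsotropicSubgroups

open WeierstrassCurve WeierstrassCurve.Affine AlbCH

open Classical in
theorem result (A₀ B₀ : AlgebraicClosure ℚ) [(Crv A₀ B₀).IsElliptic]
    (a : (Crv A₀ B₀).Point) :
    ∃ Γ : ∀ A B : AlgebraicClosure ℚ, AddSubgroup (Crv A B).Point,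
      a ∈ Γ A₀ B₀ ∧
      (∀ A B : AlgebraicClosure ℚ, (Crv A B).IsElliptic →
        (∀ (n : ℕ) (P : (Crv A B).Point), n ≠ 0 → n • P ∈ Γ A B → P ∈ Γ A B) ∧
        ∃ b : ℕ → (Crv A B).Point, LinearIndependent ℤ b ∧ ∀ i, b i ∈ Γ A B) ∧
      ∀ (m : ℕ) (_ : 2 ≤ m) (A B : Fin m → AlgebraicClosure ℚ)
        [∀ i, (Crv (A i) (B i)).IsElliptic] (z : MPt A B →₀ ℤ),
        (∀ Q ∈ z.support, ∀ i, Q i ∈ Γ (A i) (B i)) →
        z.sum (fun _ n => n) = 0 → (∀ i, z.sum (fun Q n => n • Q i) = 0) →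
        z.sum (fun Q n => (n : ℚ) • Mcl Q) = 0 :=
  iso_main A₀ B₀ a

end Pool.Agent.Results.MP_2eeeac_ag.IsotropicSubgroups
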