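import Pool.Agent.Lib.MP_2eeeac_ag.G2.G2Final

/-!
# `MP_2eeeac_ag`: zero-cycles on Jacobians of curves of genus 2: for every class `a` there are
infinitely many independent classes `b` with `{a, b} = 0`

Setting (see `Pool/Agent/Lib/MP_2eeeac_ag/G2/Defs.lean`): `f ∈ ℚ̄[x]` is monic and separable of
degree 5, `C` is the smooth projective curve of genus 2 with affine equation `y² = f(x)` and one
point `∞` at infinity (every curve of genus 2 over `ℚ̄` has such an equation). `HPt f` is the set of
its points (`none = ∞`), `Dv f` the group of divisors, `dg` the degree, `cls D ∈ Pic f` the class of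
`D` modulo principal divisors, so that `J(C)(ℚ̄)` is the subgroup of classes of degree 0 in
`Pic f`. `CH0H f = CH₀(C × C) ⊗ ℚ`, defined as rational cycles modulo the differences
`V(t₀) - V(t₁)` of fibres of irreducible curves `V ⊆ (C × C) × ℙ¹` dominating `ℙ¹`, and
`box D E = [D × E]`.

Theorem: for every divisor `D` of degree 0 there are divisors `B₀, B₁, …` of degree 0, whose
classes in `J(C)(ℚ̄)` are linearly independent over `ℤ`, and integers `n_i ≥ 1`, such that
`[D × B_i] + [B_i × D] = 0` and `[B_i × B_i] + n_i² [D × D] = 0` in `CH₀(C × C) ⊗ ℚ`.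

Proof, blueprint and assembly: helper89; referee and the Chow group part (modules CA, CB, CPl, COrb,
CPrin, CBil): helper85; modules: see `departures/helper89.md`.
-/

namespace Pool.Agent.Results.MP_2eeeac_ag.JacobianSurfaces

open Polynomial G2

theorem result (f : (AlgebraicClosure ℚ)[X]) (h₁ : f.Monic) (h₅ : f.natDegree = 5)
    (hs : f.Separable) (D : Dv f) (hD : dg D = 0) :
    ∃ (B : ℕ → Dv f) (n : ℕ → ℕ), (∀ i, dg (B i) = 0) ∧ (∀ i, 0 < n i) ∧
      LinearIndependent ℤ (fun i => cls (B i)) ∧
      ∀ i, box D (B i) + box (B i) D = 0 ∧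
        box (B i) (B i) + ((n i : ℚ) ^ 2) • box D D = 0 :=
  main_theorem f h₁ h₅ hs D hD

end Pool.Agent.Results.MP_2eeeac_ag.JacobianSurfaces
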