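import Pool.Agent.Lib.MP_2eeeac_ag.Carrier.Final

/-!
# `MP_2eeeac_ag`: `F²` of products of elliptic curves is carried by independent thin subgroups

Setting (see `Pool/Agent/Lib/MP_2eeeac_ag/Defs.lean` and `Pool/Agent/Lib/MP_2eeeac_ag/Iso/MDefs.lean`):
`E_i : y² = x³ + A_i x + B_i`, `i = 1, …, m`, are elliptic curves over `ℚ̄`; `MCH0Q A B` is the Chow
group of zero-cycles `CH₀(E_1 × ⋯ × E_m) ⊗ ℚ`, i.e. rational cycles modulo the differences
`V(t₀) - V(t₁)` of fibres of irreducible curves `V ⊆ (E_1 × ⋯ × E_m) × ℙ¹`, and `Mcl Q` is the class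
of the point `Q`.

`FinRam M` (see `Pool/Agent/Lib/MP_2eeeac_ag/Carrier/Final.lean`): the subfield `M` of `ℚ̄` has finite
ramification at some place of `ℚ̄` above `2`. `ExtField M d` is the field generated by `M` and all
algebraic numbers of degree `≤ d`.

Theorem: let `M_0, M_1, …` be subfields of `ℚ̄` with `FinRam` (for instance `M_n = ℚ`), let
`g : ℕ → ℕ` be any function and `K_n = ExtField M_n (g n)`. There is a rule which assigns to every
elliptic curve `E` over `ℚ̄` subgroups `C_0(E), C_1(E), …` of `E(ℚ̄)` such that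

* each `C_j(E)` is closed under division and has infinite rank, and the `C_j(E)` are independent
  modulo torsion;
* for every `n` the points of the sum `C(E)` of all `C_j(E)` with coordinates in `K_n` have rank at
  most `n` (for `n = 0`: they are torsion points);
* for all `m ≥ 2`, all elliptic curves `E_1, …, E_m` and all indices `s_1, …, s_m`, every zero-cycle
  of degree zero on `E_1 × ⋯ × E_m` with trivial image in the Albanese variety has the same class in
  `CH₀(E_1 × ⋯ × E_m) ⊗ ℚ` as such a cycle which is supported on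
  `C_{s_1}(E_1) × ⋯ × C_{s_m}(E_m)`.

Proof: helper75, on the library of `IsotropicSubgroups` (helper89, helper16, helper91 and others).
-/

namespace Pool.Agent.Results.MP_2eeeac_ag.ThinCarriers

open WeierstrassCurve WeierstrassCurve.Affine AlbCH

open Classical in
theorem result (M : ℕ → Subfield (AlgebraicClosure ℚ)) (hM : ∀ n, FinRam (M n)) (g : ℕ → ℕ) :
    ∃ C : ℕ → ∀ A B : AlgebraicClosure ℚ, AddSubgroup (Crv A B).Point,
      (∀ A B : AlgebraicClosure ℚ, (Crv A B).IsElliptic →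
        (∀ (j n : ℕ) (P : (Crv A B).Point), n ≠ 0 → n • P ∈ C j A B → P ∈ C j A B) ∧
        (∀ j, ∃ b : ℕ → (Crv A B).Point, LinearIndependent ℤ b ∧ ∀ i, b i ∈ C j A B) ∧
        (∀ (J : Finset ℕ) (c : ℕ → (Crv A B).Point), (∀ j ∈ J, c j ∈ C j A B) →
          ∑ j ∈ J, c j = 0 → ∀ j ∈ J, ∃ n : ℕ, n ≠ 0 ∧ n • c j = 0) ∧
        (∀ n : ℕ, ∃ f : Fin n → (Crv A B).Point, ∀ P ∈ ⨆ j, C j A B,
          (∀ s ∈ coords P, s ∈ ExtField (M n) (g n)) →
            ∃ N : ℕ, N ≠ 0 ∧ N • P ∈ AddSubgroup.closure (Set.range f))) ∧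
      ∀ (m : ℕ) (_ : 2 ≤ m) (A B : Fin m → AlgebraicClosure ℚ)
        [∀ i, (Crv (A i) (B i)).IsElliptic] (s : Fin m → ℕ) (z : MPt A B →₀ ℤ),
        z.sum (fun _ n => n) = 0 → (∀ i, z.sum (fun Q n => n • Q i) = 0) →
        ∃ w : MPt A B →₀ ℤ, (∀ Q ∈ w.support, ∀ i, Q i ∈ C (s i) (A i) (B i)) ∧
          w.sum (fun _ n => n) = 0 ∧ (∀ i, w.sum (fun Q n => n • Q i) = 0) ∧
          z.sum (fun Q n => (n : ℚ) • Mcl Q) = w.sum (fun Q n => (n : ℚ) • Mcl Q) :=
  carriers_main M hM g

end Pool.Agent.Results.MP_2eeeac_ag.ThinCarriers
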